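import Pool.Agent.Q299.MBD.SizeFinal

/-!
# MP_dfc2f8_pr, Q1: the negated form holds for `b = 1`, `p = 7 / 8`

Let `n = 2 k ^ 2 8 ^ k`. With high probability there are many dominating transversals of size `k`
(of a partition of the vertex set into `k` classes), and their pair degrees are small enough in
mean square for a potential strategy of Dominator to claim all the vertices of one of them; so
`s_MB(G, 1) ≤ k`. With high probability there are no two dominating sets of size `k` that share
`k - 1` vertices; then `γ(G) = k` and Dominator cannot win within `k` rounds.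
-/

namespace Pool.Agent.Results.MP_dfc2f8_pr.TimeExceedsSize

open Finset Filter Topology Q299.MBD

open Pool.Agent.W166.Gnp

theorem gnpProb_eq (n : ℕ) (p : ℝ) (A : SimpleGraph (Fin n) → Prop) :
    gnpProb n p A = Pr (allE n) p (fun S => A (gr S)) := by
  classical
  unfold gnpProb
  rw [← sum_eq_Pr]

theorem tendsto_sub :
    Tendsto (fun k => gnpProb (n8 k) (7 / 8) (fun G => timeMB G 1 = sizeMB G 1)) atTop (𝓝 0) := by
  simp_rw [gnpProb_eq]
  exact equal_tendsto

theorem not_tendsto :
    ¬ Tendsto (fun n => gnpProb n (7 / 8) (fun G => timeMB G 1 = sizeMB G 1)) atTop (𝓝 1) := by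
  intro h
  have hnn : Tendsto n8 atTop atTop := by
    apply tendsto_atTop_mono' _ _ tendsto_id
    filter_upwards [eventually_ge_atTop 1] with k hk
    have := le_n8 hk
    simp only [id]
    omega
  have h2 := h.comp hnn
  exact one_ne_zero (tendsto_nhds_unique h2 tendsto_sub)

/-- Q1 has a negative answer: for `b = 1` and `p = 7 / 8` the probability that
`γ_MB(G, b) = s_MB(G, b)` tends to `0` along the sequence `n = k * (2 * k * 8 ^ k)`. -/
theorem result :
    Tendsto (fun k => gnpProb (k * (2 * k * 8 ^ k)) (7 / 8) (fun G => timeMB G 1 = sizeMB G 1))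
      atTop (𝓝 0) ∧
    ¬ Tendsto (fun n => gnpProb n (7 / 8) (fun G => timeMB G 1 = sizeMB G 1)) atTop (𝓝 1) ∧
    ¬ (∀ p : ℝ, 0 < p → p < 1 → ∀ b : ℕ, 1 ≤ b →
      Tendsto (fun n => gnpProb n p (fun G => timeMB G b = sizeMB G b)) atTop (𝓝 1)) :=
  ⟨tendsto_sub, not_tendsto, fun h => not_tendsto (h (7 / 8) (by norm_num) (by norm_num) 1 le_rfl)⟩

end Pool.Agent.Results.MP_dfc2f8_pr.TimeExceedsSize
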